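import Pool.Agent.helper37.QX.SpecG

set_option autoImplicit false

/-!
# Row qg:EXL
-/

open scoped MatrixGroups ContDiff Topology
open MeasureTheory ProbabilityTheory Filter Set Polynomial
open Pool.Agent.QU Pool.Agent.RP

namespace Pool.Agent.QX

theorem EXL_zs (c : ℝ) (hc : 0 ≤ c) (b : Bool) : ‖zs c b‖ = c := by
  cases b <;> simp [zs, abs_of_nonneg hc]

theorem EXL_nil (hGEN : GEN_stmt) (hTTS : TTS_stmt) (c : ℝ) (u : Wd) : ∃ f : ℕ → ℂ,
    Summable (fun k => ‖f k‖) ∧ ∑' k, ‖f k‖ ≤ TT u.length (c * (([] : List (Fin 4 × Bool)).length : ℝ)) ∧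
    f 0 = SW u (PsL c []) [] ∧
    ∀ N : ℕ, 1 ≤ N → ∫ x, ntr (XW x u * EL c x []) ∂(gau (GI N)) = ∑' k, f k / (N : ℂ) ^ (2 * k) := by
  obtain ⟨P, hP1, hP2, hP3⟩ := hGEN [u]
  have hz : ∀ k ∉ Finset.range (P.natDegree + 1), P.coeff k = 0 := by
    intro k hk
    rw [Finset.mem_range, not_lt] at hk
    exact Polynomial.coeff_eq_zero_of_natDegree_lt (by omega)
  refine ⟨fun k => (P.coeff k : ℂ), ?_, ?_, ?_, ?_⟩
  · refine summable_of_ne_finset_zero (s := Finset.range (P.natDegree + 1)) fun k hk => ?_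
    simp only
    rw [hz k hk]
    simp
  · rw [tsum_eq_sum (s := Finset.range (P.natDegree + 1)) (fun k hk => by simp only; rw [hz k hk]; simp)]
    have h1 : ∑ k ∈ Finset.range (P.natDegree + 1), ‖((P.coeff k : ℕ) : ℂ)‖ = ((P.eval 1 : ℕ) : ℝ) := by
      rw [Polynomial.eval_eq_sum_range]
      push_cast
      refine Finset.sum_congr rfl fun k _ => ?_
      rw [one_pow, mul_one, Complex.norm_natCast]
    rw [h1]
    have h2 : (([] : List (Fin 4 × Bool)).length : ℝ) = 0 := by simp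
    rw [h2, mul_zero, hTTS.2.2.1]
    have h3 : (List.map List.length [u]).sum = u.length := by simp
    rw [h3] at hP2
    exact_mod_cast hP2
  · have h4 : (List.map ta [u]).prod = ta u := by simp
    rw [h4] at hP3
    exact hP3
  · intro N hN
    have h5 : ∫ x, ntr (XW x u * EL c x []) ∂(gau (GI N)) = EW N [u] := by
      unfold EW
      refine integral_congr_ae (Eventually.of_forall fun x => ?_)
      have e1 : EL c x [] = 1 := rfl
      simp only
      rw [e1, mul_one]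
      simp
    rw [h5, hP1 N hN, Polynomial.eval₂_eq_sum_range,
      tsum_eq_sum (s := Finset.range (P.natDegree + 1)) (fun k hk => by simp only; rw [hz k hk]; simp)]
    refine Finset.sum_congr rfl fun k _ => ?_
    rw [← pow_mul, inv_pow, div_eq_mul_inv]
    rfl

theorem EXL_cons (hTTS : TTS_stmt) (hEXS : EXS_stmt) (hVRC : VRC_stmt) (c : ℝ) (hc : 0 ≤ c) (i : Fin 4) (b : Bool)
    (L : List (Fin 4 × Bool)) (ih : ∀ u : Wd, ∃ f : ℕ → ℂ,
      Summable (fun k => ‖f k‖) ∧ ∑' k, ‖f k‖ ≤ TT u.length (c * L.length) ∧ f 0 = SW u (PsL c L) [] ∧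
      ∀ N : ℕ, 1 ≤ N → ∫ x, ntr (XW x u * EL c x L) ∂(gau (GI N)) = ∑' k, f k / (N : ℂ) ^ (2 * k)) (u : Wd) :
    ∃ f : ℕ → ℂ, Summable (fun k => ‖f k‖) ∧ ∑' k, ‖f k‖ ≤ TT u.length (c * (((i, b) :: L).length : ℝ)) ∧
      f 0 = SW u (PsL c ((i, b) :: L)) [] ∧
      ∀ N : ℕ, 1 ≤ N → ∫ x, ntr (XW x u * EL c x ((i, b) :: L)) ∂(gau (GI N)) = ∑' k, f k / (N : ℂ) ^ (2 * k) := by
  have ih' := fun j : ℕ => ih (u ++ List.replicate j i)
  choose F hF1 hF2 hF3 hF4 using ih'
  set a : ℕ → ℂ := fun j => zs c b ^ j / (j.factorial : ℂ) with ha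
  have hna : ∀ j, ‖a j‖ = c ^ j / (j.factorial : ℝ) := by
    intro j
    rw [ha]
    simp only
    rw [norm_div, norm_pow, EXL_zs c hc, Complex.norm_natCast]
  have ht0 : 0 ≤ c * (L.length : ℝ) := mul_nonneg hc (Nat.cast_nonneg _)
  have hTT := hTTS.2.1 u.length (c * L.length) c ht0 hc
  have hlen : ∀ j, (u ++ List.replicate j i).length = u.length + j := by
    intro j
    rw [List.length_append, List.length_replicate]
  have hle : ∀ j, ‖a j‖ * ∑' k, ‖F j k‖ ≤ c ^ j / (j.factorial : ℝ) * TT (u.length + j) (c * L.length) := by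
    intro j
    rw [hna, ← hlen j]
    exact mul_le_mul_of_nonneg_left (hF2 j) (by positivity)
  have hrow : ∀ j, Summable fun k => ‖a j * F j k‖ := by
    intro j
    have h1 : (fun k => ‖a j * F j k‖) = fun k => ‖a j‖ * ‖F j k‖ := by
      funext k
      rw [norm_mul]
    rw [h1]
    exact (hF1 j).mul_left _
  have hrowt : ∀ j, ∑' k, ‖a j * F j k‖ = ‖a j‖ * ∑' k, ‖F j k‖ := by
    intro j
    rw [← tsum_mul_left]
    refine tsum_congr fun k => ?_
    rw [norm_mul]
  have hcolt : Summable fun j => ∑' k, ‖a j * F j k‖ := by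
    refine Summable.of_nonneg_of_le (fun j => tsum_nonneg fun k => norm_nonneg _) (fun j => ?_) hTT.summable
    rw [hrowt]
    exact hle j
  have hG : Summable fun p : ℕ × ℕ => ‖a p.1 * F p.1 p.2‖ :=
    (summable_prod_of_nonneg fun p => norm_nonneg _).2 ⟨hrow, hcolt⟩
  have hG' : Summable fun p : ℕ × ℕ => ‖a p.2 * F p.2 p.1‖ := hG.prod_symm
  have hcol : ∀ k, Summable fun j => ‖a j * F j k‖ := fun k => hG'.prod_factor k
  have hsumk : Summable fun k => ∑' j, ‖a j * F j k‖ := hG'.prod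
  refine ⟨fun k => ∑' j, a j * F j k, ?_, ?_, ?_, ?_⟩
  · exact Summable.of_nonneg_of_le (fun k => norm_nonneg _) (fun k => norm_tsum_le_tsum_norm (hcol k)) hsumk
  · have h1 : ∑' k, ‖∑' j, a j * F j k‖ ≤ ∑' k, ∑' j, ‖a j * F j k‖ :=
      Summable.tsum_le_tsum (fun k => norm_tsum_le_tsum_norm (hcol k))
        (Summable.of_nonneg_of_le (fun k => norm_nonneg _) (fun k => norm_tsum_le_tsum_norm (hcol k)) hsumk) hsumk
    have h2 : ∑' k, ∑' j, ‖a j * F j k‖ = ∑' j, ∑' k, ‖a j * F j k‖ :=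
      Summable.tsum_comm (f := fun j k => ‖a j * F j k‖) hG
    have h3 : ∑' j, ∑' k, ‖a j * F j k‖ ≤ TT u.length (c * L.length + c) := by
      rw [← hTT.tsum_eq]
      refine Summable.tsum_le_tsum (fun j => ?_) hcolt hTT.summable
      rw [hrowt]
      exact hle j
    have h4 : c * (((i, b) :: L).length : ℝ) = c * L.length + c := by
      rw [List.length_cons]
      push_cast
      ring
    rw [h4]
    exact h1.trans (h2.le.trans h3)
  · have h1 := (hVRC.2 c u i b L).tsum_eq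
    rw [← h1]
    refine tsum_congr fun j => ?_
    rw [hF3 j]
  · intro N hN
    rw [← (hEXS N c u i b L hN).tsum_eq]
    have hN0 : (1 : ℝ) ≤ (N : ℝ) := by exact_mod_cast hN
    have hD : Summable fun p : ℕ × ℕ => a p.1 * F p.1 p.2 / (N : ℂ) ^ (2 * p.2) := by
      refine Summable.of_norm_bounded hG fun p => ?_
      rw [norm_div, norm_pow, Complex.norm_natCast]
      exact div_le_self (norm_nonneg _) (one_le_pow₀ hN0)
    have h1 : ∑' j, a j * ∫ x, ntr (XW x (u ++ List.replicate j i) * EL c x L) ∂(gau (GI N)) =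
        ∑' j, ∑' k, a j * F j k / (N : ℂ) ^ (2 * k) := by
      refine tsum_congr fun j => ?_
      rw [hF4 j N hN, ← tsum_mul_left]
      refine tsum_congr fun k => ?_
      rw [mul_div_assoc]
    have h2 : ∑' j, ∑' k, a j * F j k / (N : ℂ) ^ (2 * k) = ∑' k, ∑' j, a j * F j k / (N : ℂ) ^ (2 * k) :=
      (Summable.tsum_comm (f := fun j k => a j * F j k / (N : ℂ) ^ (2 * k)) hD).symm
    refine h1.trans (h2.trans (tsum_congr fun k => ?_))
    rw [tsum_div_const]

theorem EXL (hGEN : GEN_stmt) (hTTS : TTS_stmt) (hEXS : EXS_stmt) (hVRC : VRC_stmt) : EXL_stmt := by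
  intro c hc L
  induction L with
  | nil => exact fun u => EXL_nil hGEN hTTS c u
  | cons s L ih => exact fun u => EXL_cons hTTS hEXS hVRC c hc s.1 s.2 L ih u

end Pool.Agent.QX
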