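import Pool.Agent.helper4.QX.SpecP
import Pool.Agent.helper56.RP.MKV

set_option autoImplicit false

/-!
# Row qp:REM
-/

open scoped MatrixGroups ContDiff Topology UpperHalfPlane
open UpperHalfPlane MeasureTheory ProbabilityTheory Filter Set Polynomial
open Pool.Agent.QU Pool.Agent.RP

namespace Pool.Agent.QX

/-- `p` minus its terms of degree less than `m` -/
noncomputable def REM_q (m : ℕ) (p : ℝ[X]) : ℝ[X] := p - ∑ k ∈ Finset.range m, C (p.coeff k) * X ^ k

theorem REM_q0 (p : ℝ[X]) : REM_q 0 p = p := by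
  simp [REM_q]

theorem REM_qd (m : ℕ) (p : ℝ[X]) : derivative (REM_q (m + 1) p) = REM_q m (derivative p) := by
  unfold REM_q
  rw [derivative_sub, derivative_sum, Finset.sum_range_succ']
  have h0 : derivative (C (p.coeff 0) * X ^ 0) = 0 := by simp
  rw [h0, add_zero]
  congr 1
  refine Finset.sum_congr rfl fun k _ => ?_
  rw [derivative_C_mul_X_pow, coeff_derivative]
  push_cast
  rfl

theorem REM_qe (m : ℕ) (p : ℝ[X]) : (REM_q (m + 1) p).eval 0 = 0 := by
  unfold REM_q
  rw [eval_sub, eval_finsetSum, Finset.sum_range_succ']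
  simp [coeff_zero_eq_eval_zero]

theorem REM_tay (m : ℕ) : ∀ (p : ℝ[X]) (B x₀ : ℝ), (∀ t : ℝ, 0 ≤ t → t ≤ x₀ → |(derivative^[m] p).eval t| ≤ B) →
    ∀ x : ℝ, 0 ≤ x → x ≤ x₀ → |(REM_q m p).eval x| ≤ B * x ^ m := by
  induction m with
  | zero =>
    intro p B x₀ h x hx hx'
    rw [REM_q0, pow_zero, mul_one]
    exact h x hx hx'
  | succ m ih =>
    intro p B x₀ h x hx hx'
    have hB : 0 ≤ B := (abs_nonneg _).trans (h 0 le_rfl (hx.trans hx'))
    have h2 := ih (derivative p) B x₀ (fun t ht ht' => by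
      have := h t ht ht'
      rwa [Function.iterate_succ_apply] at this)
    rcases hx.eq_or_lt with rfl | hx0
    · rw [REM_qe, abs_zero]
      positivity
    · obtain ⟨c, hc, hc2⟩ := exists_hasDerivAt_eq_slope (fun y => (REM_q (m + 1) p).eval y)
        (fun y => (derivative (REM_q (m + 1) p)).eval y) hx0 (REM_q (m + 1) p).continuous.continuousOn
        (fun y _ => (REM_q (m + 1) p).hasDerivAt y)
      rw [REM_qe, sub_zero, sub_zero, REM_qd, eq_div_iff hx0.ne'] at hc2
      rw [← hc2, abs_mul, abs_of_pos hx0, pow_succ, ← mul_assoc]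
      refine mul_le_mul_of_nonneg_right ?_ hx0.le
      refine (h2 c hc.1.le (hc.2.le.trans hx')).trans ?_
      exact mul_le_mul_of_nonneg_left (pow_le_pow_left₀ hc.1.le hc.2.le m) hB

theorem REM_geo (y : ℝ) (hy : 2 ≤ y) (m : ℕ) : ∑ k ∈ Finset.range m, y ^ k ≤ y ^ m := by
  induction m with
  | zero => simp
  | succ m ih =>
    rw [Finset.sum_range_succ, pow_succ]
    have : 0 < y ^ m := by positivity
    nlinarith

section
variable (f : ℕ → ℝ) (hf : Summable fun k => |f k|)
include hf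

theorem REM_sum (N : ℕ) (hN : 1 ≤ N) : Summable fun k => f k / (N : ℝ) ^ (2 * k) := by
  refine Summable.of_norm_bounded hf fun k => ?_
  have hN0 : (1 : ℝ) ≤ (N : ℝ) := by exact_mod_cast hN
  rw [norm_div, Real.norm_eq_abs, Real.norm_eq_abs, abs_of_pos (by positivity : (0 : ℝ) < (N : ℝ) ^ (2 * k))]
  exact div_le_self (abs_nonneg _) (one_le_pow₀ hN0)

theorem REM_tail (N : ℕ) (hN : 1 ≤ N) (m : ℕ) : |∑' k, f (k + m) / (N : ℝ) ^ (2 * (k + m))| ≤
    (∑' k, |f k|) / (N : ℝ) ^ (2 * m) := by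
  have hN0 : (1 : ℝ) ≤ (N : ℝ) := by exact_mod_cast hN
  have hs : Summable fun k => |f (k + m)| := (summable_nat_add_iff m).2 hf
  have hle : ∀ k, ‖f (k + m) / (N : ℝ) ^ (2 * (k + m))‖ ≤ |f (k + m)| / (N : ℝ) ^ (2 * m) := by
    intro k
    rw [norm_div, Real.norm_eq_abs, Real.norm_eq_abs,
      abs_of_pos (by positivity : (0 : ℝ) < (N : ℝ) ^ (2 * (k + m)))]
    refine div_le_div_of_nonneg_left (abs_nonneg _) (by positivity) ?_
    exact pow_le_pow_right₀ hN0 (by omega)
  have hs2 : Summable fun k => |f (k + m)| / (N : ℝ) ^ (2 * m) := hs.div_const _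
  have h1 := tsum_of_norm_bounded hs2.hasSum hle
  rw [Real.norm_eq_abs, tsum_div_const] at h1
  refine h1.trans (div_le_div_of_nonneg_right ?_ (by positivity))
  have h2 := hf.sum_add_tsum_nat_add m
  have h3 : 0 ≤ ∑ i ∈ Finset.range m, |f i| := Finset.sum_nonneg fun _ _ => abs_nonneg _
  linarith

end

theorem REM (h1 : DSQ_stmt) : REM_stmt := by
  refine ⟨10240, by norm_num, ?_⟩
  intro f H L hL hH hf hfs hF
  set p : ℝ[X] := ∑ k ∈ Finset.range (L + 1), C (f k) * X ^ k with hp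
  have hcoeff : ∀ k, k ≤ L → p.coeff k = f k := by
    intro k hk
    rw [hp, finsetSum_coeff, Finset.sum_eq_single k]
    · rw [coeff_C_mul, coeff_X_pow_self, mul_one]
    · intro j _ hj
      rw [coeff_C_mul, coeff_X_pow, if_neg (Ne.symm hj), mul_zero]
    · intro h
      exact absurd (Finset.mem_range.2 (by omega)) h
  have heval : ∀ x : ℝ, p.eval x = ∑ k ∈ Finset.range (L + 1), f k * x ^ k := by
    intro x
    rw [hp, eval_finsetSum]
    refine Finset.sum_congr rfl fun k _ => ?_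
    rw [eval_mul, eval_C, eval_pow, eval_X]
  have hdeg : p.natDegree ≤ L := by
    refine natDegree_sum_le_of_forall_le _ _ fun k hk => ?_
    exact (natDegree_C_mul_X_pow_le _ _).trans (Nat.lt_succ_iff.1 (Finset.mem_range.1 hk))
  have hx : ∀ (N : ℕ) (k : ℕ), f k * (1 / (N : ℝ) ^ 2) ^ k = f k / (N : ℝ) ^ (2 * k) := by
    intro N k
    rw [div_pow, one_pow, ← pow_mul, mul_one_div]
  have hL0 : (1 : ℝ) ≤ (L : ℝ) := by exact_mod_cast hL
  -- the values of `p`
  have hsplit : ∀ N : ℕ, 1 ≤ N → ∑' k, f k / (N : ℝ) ^ (2 * k) =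
      p.eval (1 / (N : ℝ) ^ 2) + ∑' k, f (k + (L + 1)) / (N : ℝ) ^ (2 * (k + (L + 1))) := by
    intro N hN
    rw [← (REM_sum f hf N hN).sum_add_tsum_nat_add (L + 1), heval]
    congr 1
    exact Finset.sum_congr rfl fun k _ => (hx N k).symm
  have htail : ∀ N : ℕ, 2 ≤ N → |∑' k, f (k + (L + 1)) / (N : ℝ) ^ (2 * (k + (L + 1)))| ≤
      (4 * (1 / (N : ℝ) ^ 2)) ^ L * H ∧ 4 * (1 / (N : ℝ) ^ 2) ≤ 1 := by
    intro N hN
    have hN0 : (2 : ℝ) ≤ (N : ℝ) := by exact_mod_cast hN
    have hN4 : (4 : ℝ) ≤ (N : ℝ) ^ 2 := by nlinarith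
    refine ⟨?_, ?_⟩
    · refine (REM_tail f hf N (by omega) (L + 1)).trans ?_
      have e1 : (N : ℝ) ^ (2 * (L + 1)) = ((N : ℝ) ^ 2) ^ L * (N : ℝ) ^ 2 := by
        rw [← pow_mul, ← pow_add]
        ring_nf
      have e2 : (4 * (1 / (N : ℝ) ^ 2)) ^ L * H = 4 ^ L * H / ((N : ℝ) ^ 2) ^ L := by
        rw [mul_one_div, div_pow]
        ring
      rw [e1, e2]
      have hpos : 0 < ((N : ℝ) ^ 2) ^ L := by positivity
      refine (div_le_div_of_nonneg_right hfs (by positivity)).trans ?_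
      refine div_le_div_of_nonneg_left (by positivity) hpos ?_
      exact le_mul_of_one_le_right hpos.le (by linarith)
    · rw [mul_one_div, div_le_one (by positivity)]
      exact hN4
  have hpv : ∀ N : ℕ, 2 ≤ N → |p.eval (1 / (N : ℝ) ^ 2)| ≤ 2 * H := by
    intro N hN
    have e1 : p.eval (1 / (N : ℝ) ^ 2) = (∑' k, f k / (N : ℝ) ^ (2 * k)) -
        ∑' k, f (k + (L + 1)) / (N : ℝ) ^ (2 * (k + (L + 1))) := by
      rw [hsplit N (by omega)]
      ring
    rw [e1]
    have h2 := hF N (by omega)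
    obtain ⟨h3, h4⟩ := htail N hN
    have h5 : (4 * (1 / (N : ℝ) ^ 2)) ^ L ≤ 1 := pow_le_one₀ (by positivity) h4
    have h6 : (4 * (1 / (N : ℝ) ^ 2)) ^ L * H ≤ H := mul_le_of_le_one_left hH h5
    refine (abs_sub _ _).trans ?_
    linarith
  have hD := h1 MKV p L H hL hdeg hpv
  have hfk : ∀ k, k ≤ L → |f k| ≤ (1024 * (L : ℝ) ^ 6) ^ k * (4 * H) := by
    intro k hk
    have h2 := hD k 0 le_rfl (by positivity)
    rw [← coeff_zero_eq_eval_zero, coeff_iterate_derivative, zero_add, Nat.descFactorial_self, hcoeff k hk,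
      nsmul_eq_mul, abs_mul, Nat.abs_cast] at h2
    refine le_trans ?_ h2
    refine le_mul_of_one_le_left (abs_nonneg _) ?_
    exact_mod_cast Nat.factorial_pos k
  refine ⟨fun k hk => ?_, ?_⟩
  · refine (hfk k hk).trans (mul_le_mul_of_nonneg_right ?_ (by positivity))
    refine pow_le_pow_left₀ (by positivity) ?_ k
    exact mul_le_mul_of_nonneg_right (by norm_num) (by positivity)
  · intro m hm hmL N hN
    have hN0 : (1 : ℝ) ≤ (N : ℝ) := by exact_mod_cast hN
    set x : ℝ := 1 / (N : ℝ) ^ 2 with hxdef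
    have hx0 : 0 < x := by positivity
    have hpart : ∑ k ∈ Finset.range m, f k / (N : ℝ) ^ (2 * k) = ∑ k ∈ Finset.range m, f k * x ^ k :=
      Finset.sum_congr rfl fun k _ => (hx N k).symm
    have hgoal : (10240 * (L : ℝ) ^ 6 / (N : ℝ) ^ 2) ^ m * H = (10 * (1024 * (L : ℝ) ^ 6 * x)) ^ m * H := by
      rw [hxdef]
      ring
    rw [hgoal, hpart]
    set y : ℝ := 1024 * (L : ℝ) ^ 6 * x with hy
    have hy0 : 0 < y := by positivity
    have h10 : 5 * y ^ m ≤ (10 * y) ^ m := by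
      rw [mul_pow 10 y m]
      refine mul_le_mul_of_nonneg_right ?_ (pow_nonneg hy0.le m)
      have : (10 : ℝ) ^ 1 ≤ 10 ^ m := pow_le_pow_right₀ (by norm_num) hm
      linarith
    by_cases hcase : x ≤ 1 / (256 * (L : ℝ) ^ 4)
    · -- small x
      have hN2 : 2 ≤ N := by
        by_contra hcon
        have hN1 : N = 1 := by omega
        rw [hxdef, hN1, Nat.cast_one, one_pow, div_one,
          le_div_iff₀ (by positivity : (0 : ℝ) < 256 * (L : ℝ) ^ 4)] at hcase
        have h5 : (1 : ℝ) ≤ (L : ℝ) ^ 4 := one_le_pow₀ hL0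
        linarith
      obtain ⟨h3, h4⟩ := htail N hN2
      rw [← hxdef] at h3 h4
      have hq := REM_tay m p ((1024 * (L : ℝ) ^ 6) ^ m * (4 * H)) (1 / (256 * (L : ℝ) ^ 4)) (hD m) x hx0.le hcase
      have hqe : (REM_q m p).eval x = p.eval x - ∑ k ∈ Finset.range m, f k * x ^ k := by
        have e2 : (∑ k ∈ Finset.range m, C (p.coeff k) * X ^ k).eval x = ∑ k ∈ Finset.range m, f k * x ^ k := by
          rw [eval_finsetSum]
          refine Finset.sum_congr rfl fun k hk => ?_
          rw [eval_mul, eval_C, eval_pow, eval_X, hcoeff k (by have := Finset.mem_range.1 hk; omega)]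
        unfold REM_q
        rw [eval_sub, e2]
      rw [hqe] at hq
      have e1 : (∑' k, f k / (N : ℝ) ^ (2 * k)) - ∑ k ∈ Finset.range m, f k * x ^ k =
          (p.eval x - ∑ k ∈ Finset.range m, f k * x ^ k) +
            ∑' k, f (k + (L + 1)) / (N : ℝ) ^ (2 * (k + (L + 1))) := by
        rw [hsplit N hN]
        ring
      rw [e1]
      have h5 : (4 * x) ^ L ≤ (4 * x) ^ m := pow_le_pow_of_le_one (by positivity) h4 hmL
      have h6 : (4 * x) ^ m ≤ y ^ m := by
        refine pow_le_pow_left₀ (by positivity) ?_ m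
        rw [hy]
        refine mul_le_mul_of_nonneg_right ?_ hx0.le
        have : (1 : ℝ) ≤ (L : ℝ) ^ 6 := one_le_pow₀ hL0
        linarith
      have h7 : (1024 * (L : ℝ) ^ 6) ^ m * (4 * H) * x ^ m = 4 * (y ^ m * H) := by
        rw [hy, mul_pow _ x]
        ring
      rw [h7] at hq
      have h8 : (4 * x) ^ L * H ≤ y ^ m * H := mul_le_mul_of_nonneg_right (h5.trans h6) hH
      have h9 : 5 * y ^ m * H ≤ (10 * y) ^ m * H := mul_le_mul_of_nonneg_right h10 hH
      refine (abs_add_le _ _).trans ?_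
      linarith
    · -- large x
      rw [not_le] at hcase
      have hy4 : 2 ≤ y := by
        have h5 : (1 : ℝ) ≤ (L : ℝ) ^ 2 := one_le_pow₀ hL0
        have h6 : 1024 * (L : ℝ) ^ 6 * (1 / (256 * (L : ℝ) ^ 4)) = 4 * (L : ℝ) ^ 2 := by
          field_simp
          ring
        have h7 : 1024 * (L : ℝ) ^ 6 * (1 / (256 * (L : ℝ) ^ 4)) ≤ y :=
          mul_le_mul_of_nonneg_left hcase.le (by positivity)
        linarith
      have h2 := hF N hN
      have h3 : |∑ k ∈ Finset.range m, f k * x ^ k| ≤ 4 * H * y ^ m := by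
        refine (Finset.abs_sum_le_sum_abs _ _).trans ?_
        have h4 : ∑ k ∈ Finset.range m, |f k * x ^ k| ≤ ∑ k ∈ Finset.range m, 4 * H * y ^ k := by
          refine Finset.sum_le_sum fun k hk => ?_
          have hk' := Finset.mem_range.1 hk
          rw [abs_mul, abs_of_pos (pow_pos hx0 k)]
          refine (mul_le_mul_of_nonneg_right (hfk k (by omega)) (by positivity)).trans (le_of_eq ?_)
          rw [hy, mul_pow _ x]
          ring
        refine h4.trans ?_
        rw [← Finset.mul_sum]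
        exact mul_le_mul_of_nonneg_left (REM_geo y hy4 m) (by positivity)
      have h5 : 1 ≤ y ^ m := one_le_pow₀ (by linarith)
      have h6 : H ≤ y ^ m * H := le_mul_of_one_le_left hH h5
      have h9 : 5 * y ^ m * H ≤ (10 * y) ^ m * H := mul_le_mul_of_nonneg_right h10 hH
      refine (abs_sub _ _).trans ?_
      linarith

end Pool.Agent.QX
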